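import Pool.Agent.Y711.CL7

/-!
The `L`-functions modulo three of the quadratic twists over Galois extensions of degree a power of
three: the exact value.
-/

set_option autoImplicit false
set_option maxHeartbeats 1000000
set_option synthInstance.maxHeartbeats 400000

open PowerSeries

namespace Pool.Agent.Q6.FF

open Pool.Agent.TH943.HJ Pool.Agent.W313.Hyp Pool.Agent.W343.BSD Pool.Agent.Y711

theorem sq_aux {c : ℤ} (h : c = 0 ∨ c = -1) : (1 - (c : ZMod 3)) * (1 - (c : ZMod 3)) = 1 := by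
  rcases h with rfl | rfl <;> decide

section galois

variable {k : Type} [Field k] [Finite k] {B : Type} [CommRing B] [IsDomain B]
  [Algebra (Polynomial k) B] [Module.Finite (Polynomial k) B] [Module.Flat (Polynomial k) B]
  (G : Type) [Group G] [Finite G] [MulSemiringAction G B] [IsGaloisGroup G (Polynomial k) B]

theorem coe_ne_zero_of {p : Polynomial (ZMod 3)} (h : p.coeff 0 = 1) :
    (p : PowerSeries (ZMod 3)) ≠ 0 := by
  intro h0
  have h1 := congrArg (PowerSeries.coeff 0) h0
  rw [Polynomial.coeff_coe, h, map_zero] at h1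
  exact one_ne_zero h1

include G in
/-- comparison with the power of the Euler product over the line -/
theorem euler_line (h2 : (2 : k) ≠ 0) {j : ℕ} (hG : Nat.card G = 3 ^ j) (D : Polynomial k)
    (hram : ∀ P : MI k, (sp P).ramificationIdxIn B ≠ 1 → chi D P.1 ≠ 1) :
    ∃ (Y : Polynomial (ZMod 3)) (u : ZMod 3), u * u = 1 ∧ (∀ x : ZMod 3,
        (∀ P : MI k, (sp P).ramificationIdxIn B ≠ 1 → x ^ P.1.natDegree = 1) → Y.eval x = u) ∧
      eulerProd (fun v : MxD D B => dgM k v.1) (fun v => wM D v.1) * (Y : PowerSeries (ZMod 3)) =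
        E3 D ^ 3 ^ j := by
  classical
  have h3p : Fact (Nat.Prime 3) := ⟨Nat.prime_three⟩
  obtain ⟨a, ha0, ha⟩ := exists_disc G (B := B) (k := k)
  have hTfin : {P : MI k | (sp P).ramificationIdxIn B ≠ 1}.Finite :=
    (finite_deg_le (F := k) a.natDegree).subset fun P hP =>
      Polynomial.natDegree_le_of_dvd (ha P hP) ha0
  set T : Finset (MI k) := hTfin.toFinset with hT
  set pw : MI k → Polynomial (ZMod 3) := fun P =>
    1 - Polynomial.C ((chi D P.1 : ℤ) : ZMod 3) * Polynomial.X ^ P.1.natDegree with hpw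
  have hcoe : ∀ P, ((pw P : Polynomial (ZMod 3)) : PowerSeries (ZMod 3)) = w1 D P := by
    intro P
    simp only [hpw]
    unfold w1
    rw [Polynomial.coe_sub, Polynomial.coe_one, Polynomial.coe_mul, Polynomial.coe_C,
      Polynomial.coe_pow, Polynomial.coe_X]
  have hpw0 : ∀ P, (pw P).coeff 0 = 1 := by
    intro P
    have hd : P.1.natDegree ≠ 0 := (MI.deg_pos P).ne'
    simp only [hpw]
    rw [Polynomial.coeff_sub, Polynomial.coeff_one_zero, Polynomial.mul_coeff_zero,
      Polynomial.coeff_X_pow, if_neg (Ne.symm hd), mul_zero, sub_zero]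
  have hev : ∀ x : ZMod 3, (∀ P : MI k, (sp P).ramificationIdxIn B ≠ 1 → x ^ P.1.natDegree = 1) →
      ∀ P ∈ T, (pw P).eval x = 1 - ((chi D P.1 : ℤ) : ZMod 3) := by
    intro x hx P hP
    rw [hT, Set.Finite.mem_toFinset] at hP
    have hP' : (sp P).ramificationIdxIn B ≠ 1 := hP
    simp only [hpw]
    rw [Polynomial.eval_sub, Polynomial.eval_one, Polynomial.eval_mul, Polynomial.eval_C,
      Polynomial.eval_pow, Polynomial.eval_X, hx P hP', mul_one]
  have hsq : ∀ P ∈ T, (1 - ((chi D P.1 : ℤ) : ZMod 3)) * (1 - ((chi D P.1 : ℤ) : ZMod 3)) = 1 := by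
    intro P hP
    rw [hT, Set.Finite.mem_toFinset] at hP
    have hP' : (sp P).ramificationIdxIn B ≠ 1 := hP
    by_cases hPD : P.1 ∣ D
    · have : chi D P.1 = 0 := if_pos hPD
      exact sq_aux (Or.inl this)
    · rcases chi_cases hPD with h | h
      · exact absurd h (hram P hP')
      · exact sq_aux (Or.inr h)
  have hle : ∀ P : MI k, sN B P ≤ 3 ^ j := by
    intro P
    have h3 := sN_mul G (B := B) P
    rw [hG] at h3
    have h4 : 0 < (sp P).ramificationIdxIn B := by
      rcases Nat.eq_zero_or_pos ((sp P).ramificationIdxIn B) with h | h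
      · rw [h, mul_zero] at h3
        exact absurd h3.symm (pow_ne_zero _ three_ne_zero)
      · exact h
    rw [← h3]
    exact Nat.le_mul_of_pos_right _ h4
  have hB : ∀ P : MI k, P ∉ T → w1 D P ^ sN B P = w1 D P ^ 3 ^ j := by
    intro P hP
    rw [hT, Set.Finite.mem_toFinset] at hP
    by_cases hr : (sp P).ramificationIdxIn B = 1
    · have h3 := sN_mul G (B := B) P
      rw [hr, mul_one, hG] at h3
      rw [h3]
    · exact absurd hr hP
  have h5 := fin_factor (R := ZMod 3) (fun n => finite_deg_le (F := k) n)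
    (F := fun P => w1 D P ^ sN B P) (W := fun P => w1 D P ^ 3 ^ j)
    (fun P => pow_dvd_sub_one (w1_dvd D P) _) (fun P => pow_dvd_sub_one (w1_dvd D P) _) T hB
  refine ⟨∏ P ∈ T, pw P ^ (3 ^ j - sN B P),
    ∏ P ∈ T, (1 - ((chi D P.1 : ℤ) : ZMod 3)) ^ (3 ^ j - sN B P), ?_, ?_, ?_⟩
  · rw [← Finset.prod_mul_distrib]
    apply Finset.prod_eq_one
    intro P hP
    rw [← mul_pow, hsq P hP, one_pow]
  · intro x hx
    rw [Polynomial.eval_prod]
    apply Finset.prod_congr rfl
    intro P hP
    rw [Polynomial.eval_pow, hev x hx P hP]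
  · have hne : (∏ P ∈ T, w1 D P ^ sN B P) ≠ 0 := by
      rw [Finset.prod_ne_zero_iff]
      intro P _
      apply pow_ne_zero
      rw [← hcoe]
      exact coe_ne_zero_of (hpw0 P)
    apply mul_right_cancel₀ hne
    rw [euler_max G h2 hG D, coe_prod]
    simp only [Polynomial.coe_pow, hcoe]
    have h6 : (∏ P ∈ T, w1 D P ^ (3 ^ j - sN B P)) * ∏ P ∈ T, w1 D P ^ sN B P =
        ∏ P ∈ T, w1 D P ^ 3 ^ j := by
      rw [← Finset.prod_mul_distrib]
      apply Finset.prod_congr rfl
      intro P _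
      rw [← pow_add, Nat.sub_add_cancel (hle P)]
    rw [mul_assoc, h6, h5, eulerProd_pow (fun n => finite_deg_le (F := k) n) (w1_dvd D)]
    rfl

end galois

section

variable {k : Type} [Field k] [Finite k] {B : Type} [CommRing B] [IsDedekindDomain B]
  [Algebra (Polynomial k) B] [Module.Finite (Polynomial k) B] [Module.Flat (Polynomial k) B]
  (G : Type) [Group G] [Finite G] [MulSemiringAction G B] [IsGaloisGroup G (Polynomial k) B]

include G in
/-- the Euler product over the maximal ideals of `B` modulo three -/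
theorem formula_B (h2 : (2 : k) ≠ 0) (h3 : (3 : k) ≠ 0) {j : ℕ}
    (hG : Nat.card G = 3 ^ j) {D : Polynomial k} {w : Polynomial (ZMod 3)}
    (hw : E3 D * (w : PowerSeries (ZMod 3)) = 1)
    (hram : ∀ P : MI k, (sp P).ramificationIdxIn B ≠ 1 → chi D P.1 ≠ 1) (r : ℕ)
    (A : MxD D B → PowerSeries ℤ)
    (hA : ∀ v : MxD D B, (X : PowerSeries ℤ) ^ dgM k v.1 ∣ A v - 1)
    (S : Finset (MxD D B)) (c : MxD D B → Polynomial (ZMod 3))
    (hAw : ∀ v : MxD D B, red3 (A v) *
      (wM D v.1 * rescale ((Nat.card k : ℕ) : ZMod 3) (wM D v.1)) ^ r =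
        if v ∈ S then (c v : PowerSeries (ZMod 3)) else 1) :
    ∃ Y : Polynomial (ZMod 3), Y.eval ((Nat.card k : ℕ) : ZMod 3) = 1 ∧
      red3 (eulerProd (fun v : MxD D B => dgM k v.1) A) =
        (((Y * (w * w.comp (Polynomial.C ((Nat.card k : ℕ) : ZMod 3) * Polynomial.X)) ^ 3 ^ j) ^ r *
          ∏ v ∈ S, c v : Polynomial (ZMod 3)) : PowerSeries (ZMod 3)) := by
  classical
  have hp : Fact (Nat.Prime 3) := ⟨Nat.prime_three⟩
  obtain ⟨Y, u, hu1, hY, hEY⟩ := euler_line G (B := B) h2 hG D hram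
  have hu := unit3 (three_mod h3)
  set a : ZMod 3 := ((Nat.card k : ℕ) : ZMod 3) with ha
  have hYa : Y.eval a = u := hY a fun P hP => card_pow_cast (tame_card G h3 hG P hP)
  have hY1 : Y.eval 1 = u := hY 1 fun P _ => one_pow _
  have hfin := fun n => fin_max (B := B) D n
  have hA3 : ∀ v : MxD D B, (X : PowerSeries (ZMod 3)) ^ dgM k v.1 ∣ red3 (A v) - 1 := by
    intro v
    have h := map_dvd red3 (hA v)
    rwa [map_pow, map_sub, map_one, PowerSeries.map_X] at h
  set EL : PowerSeries (ZMod 3) :=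
    eulerProd (fun v : MxD D B => dgM k v.1) (fun v => wM D v.1) with hEL
  have hw2 : ∀ v : MxD D B, (X : PowerSeries (ZMod 3)) ^ dgM k v.1 ∣
      wM D v.1 * rescale a (wM D v.1) - 1 := fun v =>
    one_mod_mul (wM_dvd D v.1) (rescale_dvd_one a (wM_dvd D v.1))
  have hAw' : ∀ v : MxD D B, (X : PowerSeries (ZMod 3)) ^ dgM k v.1 ∣
      (if v ∈ S then (c v : PowerSeries (ZMod 3)) else 1) - 1 := by
    intro v
    rw [← hAw v]
    exact one_mod_mul (hA3 v) (pow_dvd_sub_one (hw2 v) r)
  have h1 : red3 (eulerProd (fun v : MxD D B => dgM k v.1) A) * (EL * rescale a EL) ^ r =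
      ((∏ v ∈ S, c v : Polynomial (ZMod 3)) : PowerSeries (ZMod 3)) := by
    rw [hEL, rescale_eulerProd hfin a (fun v => wM_dvd D v.1),
      ← eulerProd_mul hfin (fun v => wM_dvd D v.1) (fun v => rescale_dvd_one a (wM_dvd D v.1)),
      map_eulerProd hfin, ← eulerProd_pow hfin hw2,
      ← eulerProd_mul hfin hA3 (fun v => pow_dvd_sub_one (hw2 v) r)]
    simp only [hAw]
    rw [eulerProd_of_finset hfin hAw' S (fun v hv => if_neg hv), coe_prod]
    exact Finset.prod_congr rfl fun v hv => if_pos hv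
  have hEY' := congrArg (rescale a) hEY
  rw [map_mul, map_pow, ← coe_comp_scale] at hEY'
  have hw' := congrArg (rescale a) hw
  rw [map_mul, map_one, ← coe_comp_scale] at hw'
  set Y' := Y.comp (Polynomial.C a * Polynomial.X) with hY'
  set w' := w.comp (Polynomial.C a * Polynomial.X) with hw'd
  refine ⟨Y * Y', ?_, ?_⟩
  · rw [Polynomial.eval_mul, hY', eval_comp_scale, hu, hYa, hY1, hu1]
  · have h5 : (EL * rescale a EL) * (((Y * Y' : Polynomial (ZMod 3)) : PowerSeries (ZMod 3)) *
        ((w * w' : Polynomial (ZMod 3)) : PowerSeries (ZMod 3)) ^ 3 ^ j) = 1 := by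
      rw [Polynomial.coe_mul, Polynomial.coe_mul]
      calc (EL * rescale a EL) * (((Y : PowerSeries (ZMod 3)) * (Y' : PowerSeries (ZMod 3))) *
            ((w : PowerSeries (ZMod 3)) * (w' : PowerSeries (ZMod 3))) ^ 3 ^ j) =
          (EL * (Y : PowerSeries (ZMod 3))) * (rescale a EL * (Y' : PowerSeries (ZMod 3))) *
            ((w : PowerSeries (ZMod 3)) ^ 3 ^ j * (w' : PowerSeries (ZMod 3)) ^ 3 ^ j) := by
              rw [mul_pow]; ring
        _ = (E3 D * (w : PowerSeries (ZMod 3))) ^ 3 ^ j *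
            (rescale a (E3 D) * (w' : PowerSeries (ZMod 3))) ^ 3 ^ j := by
              rw [hEY, hEY', mul_pow, mul_pow]; ring
        _ = 1 := by rw [hw, hw', one_pow, one_mul]
    rw [Polynomial.coe_mul, Polynomial.coe_pow, Polynomial.coe_mul, Polynomial.coe_pow, ← h1]
    set F := red3 (eulerProd (fun v : MxD D B => dgM k v.1) A) with hF
    calc F = F * ((EL * rescale a EL) * (((Y * Y' : Polynomial (ZMod 3)) : PowerSeries (ZMod 3)) *
        ((w * w' : Polynomial (ZMod 3)) : PowerSeries (ZMod 3)) ^ 3 ^ j)) ^ r := by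
          rw [h5, one_pow, mul_one]
      _ = _ := by rw [mul_pow]; ring

end

end Pool.Agent.Q6.FF
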