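import Pool.Agent.Q6.FF.Val

/-!
The `L`-functions modulo three of the quadratic twists of curves with unipotent or nodal fibres.
-/

set_option autoImplicit false
set_option maxHeartbeats 1000000
set_option synthInstance.maxHeartbeats 400000

open Polynomial

namespace Pool.Agent.Q6.FF

open Pool.Agent.TH943.HJ Pool.Agent.W313.Hyp Pool.Agent.W343.BSD Pool.Agent.Y784.FC Pool.Agent.Y711

section galois

variable {k : Type} [Field k] [Finite k] {B : Type} [CommRing B] [IsDedekindDomain B]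
  [Algebra k[X] B] [Module.Finite k[X] B] [Module.Flat k[X] B]
  (G : Type) [Group G] [Finite G] [MulSemiringAction G B] [IsGaloisGroup G k[X] B]

include G in
/-- the number of the maximal ideals over a prime not dividing `D` is a power of three -/
theorem card_SP {j : ℕ} (hG : Nat.card G = 3 ^ j) {D : k[X]} {P : MI k} (hP : ¬ P.1 ∣ D) :
    ∃ i, (SP D B P).card = 3 ^ i := by
  classical
  have h1 : (SP D B P).card = ((sp P).primesOver B).ncard := by
    rw [← Set.ncard_coe_finset (SP D B P)]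
    rw [← Set.ncard_image_of_injective _ (Subtype.val_injective)]
    congr 1
    rw [primesOver_eq]
    ext 𝔓
    constructor
    · rintro ⟨v, hv, rfl⟩
      rw [Finset.mem_coe, mem_SP] at hv
      exact ⟨v.2.1, hv⟩
    · rintro ⟨hm, hl⟩
      refine ⟨⟨𝔓, hm, fun h => hP ((mem_iff_dvd 𝔓 P D).1 h)⟩, ?_, rfl⟩
      rw [Finset.mem_coe, mem_SP]
      exact hl
  have h2 := efg G (B := B) P
  rw [hG] at h2
  have h3 : ((sp P).primesOver B).ncard ∣ 3 ^ j := by
    rw [← h2]
    exact dvd_mul_right _ _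
  obtain ⟨i, -, hi⟩ := (Nat.dvd_prime_pow Nat.prime_three).1 h3
  exact ⟨i, h1.trans hi⟩

omit [IsDedekindDomain B] [Module.Flat k[X] B] in
theorem SP_empty {D : k[X]} {P : MI k} (hP : P.1 ∣ D) : SP D B P = ∅ := by
  rw [Finset.eq_empty_iff_forall_notMem]
  intro v hv
  rw [mem_SP] at hv
  exact v.2.2 ((mem_iff_dvd v.1 P D).2 hP)

theorem mult_comp_scale {a : ZMod 3} (ha : a * a = 1) (w : (ZMod 3)[X]) :
    rootMultiplicity a (w.comp (C a * X)) = rootMultiplicity 1 w := by
  have hp : Fact (Nat.Prime 3) := ⟨Nat.prime_three⟩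
  by_cases hw : w = 0
  · rw [hw, zero_comp, rootMultiplicity_zero, rootMultiplicity_zero]
  obtain ⟨u, hu⟩ := exists_eq_pow_rootMultiplicity_mul_and_not_dvd w hw 1
  set μ := rootMultiplicity 1 w with hμ
  obtain ⟨hu1, hu2⟩ := hu
  have ha0 : a ≠ 0 := by
    rintro rfl
    rw [zero_mul] at ha
    exact zero_ne_one ha
  have hu3 : u.eval 1 ≠ 0 := by
    intro h
    exact hu2 (dvd_iff_isRoot.2 h)
  have h1 : (X - C (1 : ZMod 3)).comp (C a * X) = C a * (X - C a) := by
    rw [sub_comp, X_comp, C_comp, mul_sub, ← C_mul, ha]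
  have h2 : w.comp (C a * X) = (X - C a) ^ μ * (C a ^ μ * u.comp (C a * X)) := by
    conv_lhs => rw [hu1]
    rw [mul_comp, pow_comp, h1, mul_pow]
    ring
  have h3 : (C a ^ μ * u.comp (C a * X)).eval a ≠ 0 := by
    rw [eval_mul, eval_pow, eval_C, eval_comp_scale, ha]
    exact mul_ne_zero (pow_ne_zero _ ha0) hu3
  have h4 : C a ^ μ * u.comp (C a * X) ≠ 0 := by
    intro h
    rw [h, eval_zero] at h3
    exact h3 rfl
  have h5 : rootMultiplicity a (C a ^ μ * u.comp (C a * X)) = 0 := by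
    rw [rootMultiplicity_eq_zero_iff]
    intro h
    exact absurd h h3
  rw [h2, rootMultiplicity_mul (mul_ne_zero (pow_ne_zero _ (X_sub_C_ne_zero a)) h4), h5, add_zero,
    rootMultiplicity_X_sub_C_pow]

open Classical in
include G in
/-- **The `L`-function modulo three.** -/
theorem formula_ext (h2 : (2 : k) ≠ 0) (h3 : (3 : k) ≠ 0) {γ : ℕ} {f : k[X][X]}
    {m n : k[X]} (hn : n ≠ 0) (hf : IsUnipotentNodal γ f m n) {g : ℕ} {D : k[X]} (hD : IsD g m D)
    {w : (ZMod 3)[X]} (hw : E3 D * (w : PowerSeries (ZMod 3)) = 1)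
    {j : ℕ} (hG : Nat.card G = 3 ^ j)
    (hram : ∀ 𝔓 : Ideal B, 𝔓.IsMaximal → 𝔓.ramificationIdx k[X] ≠ 1 →
      quadSym (algebraMap k[X] (B ⧸ 𝔓) D) ≠ 1)
    (ε : MI k → ℤ) (hε : ∀ P : MI k, P.1 ∣ n → ¬ P.1 ∣ D → NodeAt f D P (ε P)) :
    ∃ Z : (ZMod 3)[X], red3 (LSeries f D B) = (Z : PowerSeries (ZMod 3)) ∧ Z ≠ 0 ∧
      Z.eval ((Nat.card k : ℕ) : ZMod 3) =
        (w.eval ((Nat.card k : ℕ) : ZMod 3) * w.eval 1) ^ γ *
          ∏ P ∈ (pd n).filter (fun P => ¬ P.1 ∣ D), (1 - ((ε P : ℤ) : ZMod 3)) ∧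
      rootMultiplicity ((Nat.card k : ℕ) : ZMod 3) Z ≤
        3 ^ j * (γ * (rootMultiplicity 1 w + rootMultiplicity ((Nat.card k : ℕ) : ZMod 3) w) +
          ∑ P ∈ (pd n).filter (fun P => ¬ P.1 ∣ D ∧ ε P = 1), 3 ^ padicValNat 3 P.1.natDegree) := by
  classical
  have hmonic := hD.monic
  have hp3 : Fact (Nat.Prime 3) := ⟨Nat.prime_three⟩
  have hu3 := unit3 (three_mod h3)
  -- the ramification condition
  have hram' : ∀ P : MI k, (sp P).ramificationIdxIn B ≠ 1 → chi D P.1 ≠ 1 := by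
    intro P hP
    obtain ⟨𝔓⟩ := (inferInstance : Nonempty ((sp P).primesOver B))
    obtain ⟨𝔓, h𝔓⟩ := 𝔓
    rw [primesOver_eq] at h𝔓
    obtain ⟨hmax, hov⟩ := h𝔓
    rw [Ideal.ramificationIdxIn_eq_ramificationIdx (sp P) 𝔓 G] at hP
    have h1 := hram 𝔓 hmax hP
    obtain ⟨i, hi⟩ := f_pow G (B := B) hG P
    rw [Ideal.inertiaDegIn_eq_inertiaDeg (sp P) 𝔓 G] at hi
    have hodd : Odd (𝔓.inertiaDeg k[X]) := by
      rw [hi]
      exact Odd.pow (by decide)
    have h4 := qs_over h2 𝔓 P hodd D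
    rw [← h4]
    rw [quadSym_eq] at h1
    exact h1
  -- the prime below
  have hbel : ∀ v : MxD D B, ∃ P : MI k, v.1.LiesOver (sp P) := fun v => by
    have hmax := v.2.1
    exact exists_below (k := k) v.1
  choose bel hbel using hbel
  set q3 : ZMod 3 := ((Nat.card k : ℕ) : ZMod 3) with hq3
  set S : Finset (MxD D B) := (pd n).biUnion (SP D B) with hS
  have hmemS : ∀ v, v ∈ S ↔ (bel v).1 ∣ n := by
    intro v
    rw [hS, Finset.mem_biUnion]
    constructor
    · rintro ⟨P, hP, hv⟩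
      rw [mem_SP] at hv
      rw [Pool.Agent.Y784.SV.mem_pd hn] at hP
      have : P = bel v := below_unique hv (hbel v)
      rwa [← this]
    · intro h
      exact ⟨bel v, (Pool.Agent.Y784.SV.mem_pd hn).2 h, mem_SP.2 (hbel v)⟩
  have hε1 : ∀ v ∈ S, ε (bel v) = 1 ∨ ε (bel v) = -1 := by
    intro v hv
    have hPn := (hmemS v).1 hv
    have hbv := hbel v
    have hPD : ¬ (bel v).1 ∣ D := fun h => v.2.2 ((mem_iff_dvd v.1 (bel v) D).2 h)
    obtain ⟨c, u, h4, h5, h6⟩ := hε _ hPn hPD
    rw [h6]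
    apply qs_cases
    have hdom : IsDomain (k[X] ⧸ sp (bel v)) := Ideal.Quotient.isDomain _
    apply mul_ne_zero _ h5
    intro h7
    apply hPD
    rw [← Ideal.mem_span_singleton]
    exact Ideal.Quotient.eq_zero_iff_mem.1 h7
  have hdg : ∀ v : MxD D B, dgM k v.1 ≠ 0 := fun v => by
    have hmax := v.2.1
    exact (dg_pos (k := k) v.1).ne'
  -- the main comparison
  have hmain := formula_B G h2 h3 hG hw hram' γ
    (fun 𝔓 => localSeries (residueDeg k 𝔓.1)
      (C (algebraMap k[X] (B ⧸ 𝔓.1) D) * f.map (algebraMap k[X] (B ⧸ 𝔓.1)))) ?_ S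
    (fun v => corr q3 (ε (bel v)) (dgM k v.1)) ?_
  · obtain ⟨Y, hY1, hY2⟩ := hmain
    have hfib : ∀ {M : Type} [CommMonoid M] (φ : ℤ → M),
        ∏ v ∈ S, φ (ε (bel v)) = ∏ P ∈ pd n, φ (ε P) ^ (SP D B P).card := by
      intro M _ φ
      rw [hS, Finset.prod_biUnion]
      · refine Finset.prod_congr rfl fun P _ => ?_
        have h6 : ∀ v ∈ SP D B P, φ (ε (bel v)) = φ (ε P) := by
          intro v hv
          rw [mem_SP] at hv
          have : P = bel v := below_unique hv (hbel v)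
          rw [← this]
        rw [Finset.prod_congr rfl h6, Finset.prod_const]
      · intro P _ Q _ hPQ
        rw [Function.onFun, Finset.disjoint_left]
        intro v h6 h7
        rw [mem_SP] at h6 h7
        exact hPQ (below_unique h6 h7)
    have ha0 : q3 ≠ 0 := by
      intro h
      rw [h, zero_mul] at hu3
      exact zero_ne_one hu3
    have hw0 : w ≠ 0 := by
      rintro rfl
      rw [coe_zero, mul_zero] at hw
      exact zero_ne_one hw
    set w' : (ZMod 3)[X] := w.comp (C q3 * X) with hw'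
    have hw'0 : w' ≠ 0 := by
      intro h
      have h4 := congrArg (fun p : (ZMod 3)[X] => p.comp (C q3 * X)) h
      simp only [zero_comp] at h4
      rw [hw', comp_assoc, mul_comp, C_comp, X_comp, ← mul_assoc, ← C_mul, hu3, C_1, one_mul,
        comp_X] at h4
      exact hw0 h4
    have hY0 : Y ≠ 0 := by
      rintro rfl
      rw [eval_zero] at hY1
      exact zero_ne_one hY1
    have hc0 : ∀ v ∈ S, corr q3 (ε (bel v)) (dgM k v.1) ≠ 0 := fun v _ => corr_ne _ _ (hdg v)
    have hpr0 : (∏ v ∈ S, corr q3 (ε (bel v)) (dgM k v.1)) ≠ 0 := Finset.prod_ne_zero_iff.2 hc0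
    refine ⟨_, hY2, mul_ne_zero (pow_ne_zero _ (mul_ne_zero hY0
      (pow_ne_zero _ (mul_ne_zero hw0 hw'0)))) hpr0, ?_, ?_⟩
    · rw [eval_mul, eval_pow, eval_mul, eval_pow, eval_mul, hY1, one_mul, eval_comp_scale, hu3,
        ZMod.pow_card_pow, eval_prod]
      congr 1
      have h4 : ∀ v ∈ S, (corr q3 (ε (bel v)) (dgM k v.1)).eval q3 =
          (fun e : ℤ => (1 - (e : ZMod 3))) (ε (bel v)) := fun v _ => corr_eval hu3 _ _
      rw [Finset.prod_congr rfl h4, hfib (fun e : ℤ => (1 - (e : ZMod 3))), Finset.prod_filter]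
      refine Finset.prod_congr rfl fun P _ => ?_
      by_cases hPD : P.1 ∣ D
      · rw [if_neg (not_not.2 hPD), SP_empty hPD, Finset.card_empty, pow_zero]
      · obtain ⟨i, hi⟩ := card_SP G (B := B) hG hPD
        rw [if_pos hPD, hi, ZMod.pow_card_pow]
    · have e1 : rootMultiplicity q3 Y = 0 := by
        rw [rootMultiplicity_eq_zero_iff]
        intro h
        exfalso
        have h4 : Y.eval q3 = 0 := h
        rw [hY1] at h4
        exact one_ne_zero h4
      have hmp : ∀ {p : (ZMod 3)[X]} (i : ℕ), rootMultiplicity q3 (p ^ i) =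
          i * rootMultiplicity q3 p := by
        intro p i
        rw [← count_roots, roots_pow, Multiset.count_nsmul, count_roots]
      have e2 : rootMultiplicity q3 ((Y * (w * w') ^ 3 ^ j) ^ γ) =
          γ * (3 ^ j * (rootMultiplicity q3 w + rootMultiplicity 1 w)) := by
        rw [hmp, rootMultiplicity_mul (mul_ne_zero hY0 (pow_ne_zero _ (mul_ne_zero hw0 hw'0))), e1,
          zero_add, hmp, rootMultiplicity_mul (mul_ne_zero hw0 hw'0), hw', mult_comp_scale hu3]
      rw [rootMultiplicity_mul (mul_ne_zero (pow_ne_zero _ (mul_ne_zero hY0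
        (pow_ne_zero _ (mul_ne_zero hw0 hw'0)))) hpr0), e2, mult_prod S _ hc0]
      have e3 : γ * (3 ^ j * (rootMultiplicity q3 w + rootMultiplicity 1 w)) =
          3 ^ j * (γ * (rootMultiplicity 1 w + rootMultiplicity q3 w)) := by ring
      rw [e3, mul_add (3 ^ j)]
      apply Nat.add_le_add_left
      have h5 : ∑ v ∈ S, rootMultiplicity q3 (corr q3 (ε (bel v)) (dgM k v.1)) =
          ∑ v ∈ S, if ε (bel v) = 1 then 3 ^ padicValNat 3 (dgM k v.1) else 0 :=
        Finset.sum_congr rfl fun v hv => corr_mult_le hu3 (hε1 v hv) (hdg v)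
      rw [h5, hS, Finset.sum_biUnion, Finset.mul_sum, Finset.sum_filter]
      · apply Finset.sum_le_sum
        intro P _
        have h6 : ∀ v ∈ SP D B P, (if ε (bel v) = 1 then 3 ^ padicValNat 3 (dgM k v.1) else 0) =
            if ε P = 1 then 3 ^ padicValNat 3 (dgM k v.1) else 0 := by
          intro v hv
          rw [mem_SP] at hv
          have : P = bel v := below_unique hv (hbel v)
          rw [← this]
        rw [Finset.sum_congr rfl h6]
        by_cases hPD : P.1 ∣ D
        · rw [SP_empty hPD, Finset.sum_empty]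
          exact Nat.zero_le _
        · by_cases h7 : ε P = 1
          · rw [if_pos (show ¬ P.1 ∣ D ∧ ε P = 1 from ⟨hPD, h7⟩)]
            simp only [if_pos h7]
            exact sum_SP_le G hG D P
          · rw [if_neg (fun h : ¬ P.1 ∣ D ∧ ε P = 1 => h7 h.2)]
            simp only [if_neg h7]
            rw [Finset.sum_const_zero]
      · intro P _ Q _ hPQ
        rw [Function.onFun, Finset.disjoint_left]
        intro v h6 h7
        rw [mem_SP] at h6 h7
        exact hPQ (below_unique h6 h7)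
  · intro v
    have hmax := v.2.1
    let _ : Field (B ⧸ v.1) := Ideal.Quotient.field _
    have hfin := finite_quot k v.1
    have h1 := locS_dvd (F := B ⧸ v.1) (residueDeg k v.1) (hdg v)
      (C (algebraMap k[X] (B ⧸ v.1) D) * f.map (algebraMap k[X] (B ⧸ v.1)))
    rw [← localSeries_eq] at h1
    exact h1
  · intro v
    have hmax := v.2.1
    let _ : Field (B ⧸ v.1) := Ideal.Quotient.field _
    have hfin := finite_quot k v.1
    have hbv := hbel v
    have hdeg : residueDeg k v.1 ≠ 0 := hdg v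
    have hDv : algebraMap k[X] (B ⧸ v.1) D ≠ 0 := by
      intro h0
      apply v.2.2
      rw [← Ideal.Quotient.eq_zero_iff_mem]
      exact h0
    have hmv : (algebraMap k[X] (B ⧸ v.1)) m ≠ 0 := by
      intro h0
      apply hDv
      obtain ⟨e, he⟩ := hD.dvd
      exact (congrArg (algebraMap k[X] (B ⧸ v.1)) he).trans (by rw [map_mul, h0, zero_mul])
    have h2' : (2 : B ⧸ v.1) ≠ 0 := by
      let _ : Algebra k (B ⧸ v.1) := ((algebraMap k[X] (B ⧸ v.1)).comp C).toAlgebra
      exact two_ne_ext (F' := B ⧸ v.1) h2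
    have hcard : (Nat.card (B ⧸ v.1) : ZMod 3) = ((Nat.card k : ℕ) : ZMod 3) ^ dgM k v.1 := by
      have e1 := card_over (k := k) v.1 (bel v)
      rw [← dg_over (k := k) v.1 (bel v)] at e1
      rw [e1]
      push_cast
      rfl
    have h9 : PowerSeries.rescale ((Nat.card k : ℕ) : ZMod 3) (wM D v.1) =
        1 - PowerSeries.C ((Nat.card (B ⧸ v.1) : ZMod 3) *
          (Int.castRingHom (ZMod 3)) (qs (algebraMap k[X] (B ⧸ v.1) D))) *
            PowerSeries.X ^ residueDeg k v.1 := by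
      unfold wM
      rw [map_sub, map_one, map_mul, map_pow, PowerSeries.rescale_X, hcard, mul_pow, ← map_pow,
        map_mul]
      have e2 : PowerSeries.rescale ((Nat.card k : ℕ) : ZMod 3) (PowerSeries.C
          ((qs (Ideal.Quotient.mk v.1 (algebraMap k[X] B D)) : ℤ) : ZMod 3)) =
          PowerSeries.C ((qs (Ideal.Quotient.mk v.1 (algebraMap k[X] B D)) : ℤ) : ZMod 3) := by
        ext n
        rw [PowerSeries.coeff_rescale, PowerSeries.coeff_C]
        split_ifs with h
        · rw [h, pow_zero, one_mul]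
        · rw [mul_zero]
      rw [e2]
      have e3 : dgM k v.1 = residueDeg k v.1 := rfl
      rw [e3]
      have e4 : (Int.castRingHom (ZMod 3)) (qs (algebraMap k[X] (B ⧸ v.1) D)) =
          ((qs (Ideal.Quotient.mk v.1 (algebraMap k[X] B D)) : ℤ) : ZMod 3) := rfl
      rw [e4]
      ring
    have hnv : (algebraMap k[X] (B ⧸ v.1)) n = 0 ↔ (bel v).1 ∣ n := by
      rw [← mem_iff_dvd v.1 (bel v) n, ← Ideal.Quotient.eq_zero_iff_mem]
      rfl
    by_cases hv : v ∈ S
    · rw [if_pos hv]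
      have hPn := (hmemS v).1 hv
      have hPD : ¬ (bel v).1 ∣ D := fun h => v.2.2 ((mem_iff_dvd v.1 (bel v) D).2 h)
      obtain ⟨c, u, g1, g2, -, g3, g4, g5⟩ :=
        (hf.2 (B ⧸ v.1) (algebraMap k[X] (B ⧸ v.1)) hmv).2 (hnv.2 hPn)
      rw [localSeries_eq] at g4
      have g6 := node_rel (F := B ⧸ v.1) h2' hf.1 g2 g4 g5 (algebraMap k[X] (B ⧸ v.1) D) hdeg
      rw [← g1, ← localSeries_eq, ← qs_eq] at g6
      -- comparison of the symbols
      obtain ⟨i, hi⟩ := f_pow G (B := B) hG (bel v)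
      rw [Ideal.inertiaDegIn_eq_inertiaDeg (sp (bel v)) v.1 G] at hi
      have hodd : Odd (v.1.inertiaDeg k[X]) := by
        rw [hi]
        exact Odd.pow (by decide)
      have h8 := node_over h2 v.1 (bel v) hodd (hε _ hPn hPD) g3 g1
      rw [← qs_eq, h8] at g6
      rw [h9, corr_coe, hq3, ← hcard]
      exact g6
    · rw [if_neg hv]
      have hPn : ¬ (bel v).1 ∣ n := fun h => hv ((hmemS v).2 h)
      have h6 := ((hf.2 (B ⧸ v.1) (algebraMap k[X] (B ⧸ v.1)) hmv).1
        (fun h => hPn (hnv.1 h))).2.2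
      have h7 : red3 (locS 1 (f.map (algebraMap k[X] (B ⧸ v.1)))) *
          ((1 - PowerSeries.X) * (1 - PowerSeries.C (Nat.card (B ⧸ v.1) : ZMod 3) *
            PowerSeries.X)) ^ γ = 1 := by
        rw [← localSeries_eq]
        exact h6
      have h8 := locS_rel (F := B ⧸ v.1) h2' (algebraMap k[X] (B ⧸ v.1) D)
        (f.map (algebraMap k[X] (B ⧸ v.1))) (residueDeg k v.1) hdeg γ
        (Int.castRingHom (ZMod 3)) _ h7
      rw [← localSeries_eq, ← qs_eq] at h8
      rw [h9]
      exact h8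

end galois

end Pool.Agent.Q6.FF
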