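import Pool.Agent.Q6.FF.Val2

/-!
The special values modulo three and the order of vanishing for every twist.
-/

set_option autoImplicit false
set_option maxHeartbeats 1000000
set_option synthInstance.maxHeartbeats 400000

open Polynomial

namespace Pool.Agent.Q6.FF

open Pool.Agent.TH943.HJ Pool.Agent.W313.Hyp Pool.Agent.W343.BSD Pool.Agent.Y784.FC Pool.Agent.Y711

section small

variable {k : Type} [Field k] [Finite k]

omit [Finite k] in
theorem no_sol_zero {D Q B : k[X]} (hodd : Odd D.natDegree) (hD : D ≠ 0) (hQ : Q ≠ 0)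
    (hB : B.Monic) (h : D * Q ^ 2 = B ^ 2 - 1) : False := by
  have h1 : (D * Q ^ 2).natDegree = D.natDegree + 2 * Q.natDegree := by
    rw [natDegree_mul hD (pow_ne_zero 2 hQ), natDegree_pow]
  by_cases h0 : B.natDegree = 0
  · have h2 : B = 1 := hB.natDegree_eq_zero.1 h0
    rw [h2, one_pow, sub_self] at h
    exact mul_ne_zero hD (pow_ne_zero 2 hQ) h
  · have h2 : (B ^ 2 - 1).natDegree = 2 * B.natDegree := by
      rw [natDegree_sub_eq_left_of_natDegree_lt, natDegree_pow]
      rw [natDegree_one, natDegree_pow]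
      omega
    rw [h, h2] at h1
    obtain ⟨i, hi⟩ := hodd
    omega

/-- the quadratic function fields of genus zero, and of genus one apart from those with a point of
order three, have class number prime to three -/
theorem small (h2 : (2 : k) ≠ 0) {g : ℕ} {m D : k[X]} (hD : IsD g m D)
    [IsDedekindDomain (CR D)] (h3 : 3 ∣ Nat.card (ClassGroup (CR D))) :
    g ≠ 0 ∧ (g = 1 → ∃ (a : k) (B : k[X]), B.natDegree ≤ 1 ∧ D = (X - C a) ^ 3 + B ^ 2) := by
  obtain ⟨G, A, B, Q, h⟩ := exists_sol h2 hD h3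
  have hodd : Odd D.natDegree := ⟨g, hD.deg⟩
  have hD0 : D ≠ 0 := hD.monic.ne_zero
  have hle := h.deg
  have hzero : G.natDegree + A.natDegree ≠ 0 := by
    intro h0
    have hG : G = 1 := h.hG.natDegree_eq_zero.1 (by omega)
    have hA : A = 1 := h.hA.natDegree_eq_zero.1 (by omega)
    rcases h.eqn with ⟨ho, _, _⟩ | ⟨_, hB, he⟩
    · rw [h0] at ho
      exact absurd ho (by decide)
    · rw [hG, hA, one_mul, one_mul, one_pow] at he
      exact no_sol_zero hodd hD0 h.Q0 hB he
  refine ⟨by omega, ?_⟩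
  intro hg
  have hsum : G.natDegree + A.natDegree = 1 := by omega
  have hdeg3 : D.natDegree = 3 := by
    rw [hD.deg, hg]
  have hl : (D * Q ^ 2).natDegree = 3 + 2 * Q.natDegree := by
    rw [natDegree_mul hD0 (pow_ne_zero 2 h.Q0), natDegree_pow, hdeg3]
  rcases h.eqn with ⟨_, hQ, he⟩ | ⟨hev, _, _⟩
  · rcases Nat.eq_zero_or_pos G.natDegree with h0 | h0
    · have hG : G = 1 := h.hG.natDegree_eq_zero.1 h0
      have hA1 : A.natDegree = 1 := by omega
      rw [hG, one_mul, one_mul] at he
      have hA3 : (A ^ 3).natDegree = 3 := by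
        rw [natDegree_pow, hA1]
      have hBle : B.natDegree ≤ 1 := by
        by_contra hcon
        have h4 : (B ^ 2 + A ^ 3).natDegree = 2 * B.natDegree := by
          rw [natDegree_add_eq_left_of_natDegree_lt, natDegree_pow]
          rw [hA3, natDegree_pow]
          omega
        rw [he, h4] at hl
        omega
      have h4 : (B ^ 2 + A ^ 3).natDegree = 3 := by
        rw [natDegree_add_eq_right_of_natDegree_lt, hA3]
        rw [hA3, natDegree_pow]
        omega
      rw [he, h4] at hl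
      have hQ1 : Q = 1 := hQ.natDegree_eq_zero.1 (by omega)
      rw [hQ1, one_pow, mul_one] at he
      obtain ⟨a, ha⟩ : ∃ a : k, A = X - C a := by
        refine ⟨-A.coeff 0, ?_⟩
        have h5 := A.eq_X_add_C_of_natDegree_le_one (by omega)
        have h6 : A.coeff 1 = 1 := by
          have := h.hA.coeff_natDegree
          rwa [hA1] at this
        rw [h6, C_1, one_mul] at h5
        rw [C_neg, sub_neg_eq_add]
        exact h5
      refine ⟨a, B, hBle, ?_⟩
      rw [he, ha, add_comm]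
    · exfalso
      have hA : A = 1 := h.hA.natDegree_eq_zero.1 (by omega)
      have hG1 : G.natDegree = 1 := by omega
      rw [hA, one_pow] at he
      have h4 : (G * B ^ 2).natDegree = 1 + 2 * B.natDegree := by
        rw [natDegree_mul h.hG.ne_zero (pow_ne_zero 2 h.B0), natDegree_pow, hG1]
      have h5 : (G * B ^ 2 + 1).natDegree = 1 + 2 * B.natDegree := by
        rw [natDegree_add_eq_left_of_natDegree_lt, h4]
        rw [natDegree_one, h4]
        omega
      have h6 : G * B ^ 2 + 1 ≠ 0 := by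
        intro h7
        rw [h7, natDegree_zero] at h5
        omega
      have h7 : (G * (G * B ^ 2 + 1)).natDegree = 1 + (1 + 2 * B.natDegree) := by
        rw [natDegree_mul h.hG.ne_zero h6, hG1, h5]
      rw [he, h7] at hl
      omega
  · rw [hsum] at hev
    exact absurd hev (by decide)

end small

section node

variable {k : Type} [Field k] [Finite k]

theorem node_iff {γ : ℕ} {f : k[X][X]} {m n : k[X]} (hf : IsUnipotentNodal γ f m n) {D : k[X]}
    {P : MI k} (hPn : P.1 ∣ n) (hPm : ¬ P.1 ∣ m) (hPD : ¬ P.1 ∣ D) {ε : ℤ} (hε : NodeAt f D P ε) :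
    (ε = 1 ∨ ε = -1) ∧
      (ε = 1 ↔ SplitNode (C (AdjoinRoot.mk P.1 D) * f.map (AdjoinRoot.mk P.1))) := by
  classical
  let _ : Field (k[X] ⧸ sp P) := Ideal.Quotient.field _
  have hfin : Finite (k[X] ⧸ sp P) := finRF P
  have e1 : Ideal.Quotient.mk (sp P) m ≠ 0 := by
    intro h
    apply hPm
    rw [← Ideal.mem_span_singleton]
    exact Ideal.Quotient.eq_zero_iff_mem.1 h
  have e2 : Ideal.Quotient.mk (sp P) n = 0 := by
    apply Ideal.Quotient.eq_zero_iff_mem.2
    rw [Ideal.mem_span_singleton]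
    exact hPn
  have e3 : Ideal.Quotient.mk (sp P) D ≠ 0 := by
    intro h
    apply hPD
    rw [← Ideal.mem_span_singleton]
    exact Ideal.Quotient.eq_zero_iff_mem.1 h
  obtain ⟨c, u, g1, g2, -, g3, -⟩ := (hf.2 (k[X] ⧸ sp P) (Ideal.Quotient.mk (sp P)) e1).2 e2
  obtain ⟨c0, u0, k1, k2, k3⟩ := id hε
  obtain ⟨h4, h5⟩ := node_unique (F := k[X] ⧸ sp P) g3 k2 (g1.symm.trans k1)
  subst h4
  subst h5
  refine ⟨?_, ?_, ?_⟩
  · rw [k3]
    exact qs_cases (mul_ne_zero e3 k2)
  · intro h1
    exact node_split hε h1 rfl hPD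
  · intro hs
    have hs' : SplitNode (C (Ideal.Quotient.mk (sp P) D) * f.map (Ideal.Quotient.mk (sp P))) := hs
    obtain ⟨c', u', s1, s2, s3⟩ := hs'
    rw [g1] at s1
    have s4 : (X - C c) ^ 2 * (C (Ideal.Quotient.mk (sp P) D) * u) = (X - C c') ^ 2 * u' := by
      rw [← s1]
      ring
    have hunit : IsUnit (C (Ideal.Quotient.mk (sp P) D) : (k[X] ⧸ sp P)[X]) :=
      isUnit_C.2 (isUnit_iff_ne_zero.2 e3)
    have hsq : Squarefree (C (Ideal.Quotient.mk (sp P) D) * u) := by
      intro x hx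
      apply g3 x
      exact (hunit.dvd_mul_left).1 hx
    obtain ⟨h6, h7⟩ := node_unique (F := k[X] ⧸ sp P) hsq s2 s4
    rw [← h7, ← h6, eval_mul, eval_C] at s3
    rw [k3]
    unfold qs
    rw [if_neg (mul_ne_zero e3 k2), if_pos s3]

omit [Finite k] in
theorem split_not_dvd {f : k[X][X]} {D P : k[X]}
    (h : SplitNode (C (AdjoinRoot.mk P D) * f.map (AdjoinRoot.mk P))) : ¬ P ∣ D := by
  intro hd
  obtain ⟨c, u, h1, h2, -⟩ := h
  have h3 : AdjoinRoot.mk P D = 0 := AdjoinRoot.mk_eq_zero.2 hd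
  rw [h3, C_0, zero_mul] at h1
  have hm : ((X - C c) ^ 2 : (AdjoinRoot P)[X]).Monic := (monic_X_sub_C c).pow 2
  have h4 : u = 0 := (hm.mul_right_eq_zero_iff).1 h1.symm
  rw [h4, eval_zero] at h2
  exact h2 rfl

end node

end Pool.Agent.Q6.FF
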