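import Pool.Agent.Q6.FF.Val3

/-!
The theorem on the special values modulo three.
-/

set_option autoImplicit false
set_option maxHeartbeats 1000000
set_option synthInstance.maxHeartbeats 400000

open Polynomial

namespace Pool.Agent.Q6.FF

open Pool.Agent.TH943.HJ Pool.Agent.W313.Hyp Pool.Agent.W343.BSD Pool.Agent.Y784.FC Pool.Agent.Y711

section

variable {k : Type} [Field k]

open Classical in
/-- The product over the primes `P` dividing `n` but not `D` of `0` if the curve `y ^ 2 = D f(x)` has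
a node with rational tangent directions at `P`, and `-1` otherwise, in `ℤ/3`. -/
noncomputable def nodeFactor (f : k[X][X]) (D n : k[X]) : ZMod 3 :=
  ∏ᶠ (P : k[X]) (_ : P.Monic ∧ Irreducible P ∧ P ∣ n ∧ ¬ P ∣ D),
    if SplitNode (C (AdjoinRoot.mk P D) * f.map (AdjoinRoot.mk P)) then 0 else -1

variable [Finite k]

open Classical in
theorem nodeFactor_eq (f : k[X][X]) {n : k[X]} (hn : n ≠ 0) (D : k[X]) :
    nodeFactor f D n = ∏ P ∈ (pd n).filter (fun P => ¬ P.1 ∣ D),
      (if SplitNode (C (AdjoinRoot.mk P.1 D) * f.map (AdjoinRoot.mk P.1)) then (0 : ZMod 3)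
        else -1) := by
  set T : Finset (MI k) := (pd n).filter (fun P => ¬ P.1 ∣ D) with hT
  have hT' : ∀ P : MI k, P ∈ T ↔ P.1 ∣ n ∧ ¬ P.1 ∣ D := by
    intro P
    rw [hT, Finset.mem_filter, Pool.Agent.Y784.SV.mem_pd hn]
  have h1 : nodeFactor f D n =
      ∏ᶠ P ∈ ((T.map (Function.Embedding.subtype _) : Finset k[X]) : Set k[X]),
        (if SplitNode (C (AdjoinRoot.mk P D) * f.map (AdjoinRoot.mk P)) then (0 : ZMod 3)
          else -1) := by
    unfold nodeFactor
    refine finprod_congr fun P => ?_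
    refine finprod_congr_Prop (propext ?_) (fun _ => rfl)
    rw [Finset.mem_coe, Finset.mem_map]
    constructor
    · rintro ⟨e1, e2, e3, e4⟩
      exact ⟨⟨P, e1, e2⟩, (hT' _).2 ⟨e3, e4⟩, rfl⟩
    · rintro ⟨Q, hQ, rfl⟩
      have := (hT' Q).1 hQ
      exact ⟨Q.2.1, Q.2.2, this.1, this.2⟩
  rw [h1, finprod_mem_coe_finset, Finset.prod_map]
  rfl

theorem EZ_eq {D : k[X]} (hodd : Odd D.natDegree) : localSeries 1 D = EZ D := by
  rw [localSeries_eq]
  unfold locS EZ
  rw [cinf_odd (Nat.not_even_iff_odd.2 hodd), map_zero, zero_mul, sub_zero, mul_one]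
  congr 1
  · funext P
    rw [one_mul]
  · funext P
    rw [one_mul]

/-- **The special values modulo three and the order of vanishing for every twist.** -/
theorem main (h2 : (2 : k) ≠ 0) (h3 : (3 : k) ≠ 0) {m n : k[X]} (hn : n ≠ 0) {g : ℕ} {D : k[X]}
    (hD' : D ∈ twists g m) :
    ∃ (_ : IsDedekindDomain (CR D)) (w : ℤ[X]),
      (w : PowerSeries ℤ) * localSeries 1 D = 1 ∧
      w.eval 1 = (Nat.card (ClassGroup (CR D)) : ℤ) ∧
      (3 ∣ Nat.card (ClassGroup (CR D)) → g ≠ 0 ∧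
        (g = 1 → ∃ (a : k) (B : k[X]), B.natDegree ≤ 1 ∧ D = (X - C a) ^ 3 + B ^ 2)) ∧
      ∀ (γ : ℕ) (f : k[X][X]), IsUnipotentNodal γ f m n →
        ∀ (L : Type) [Field L] [Algebra k[X] L] [Algebra (RatFunc k) L]
          [IsScalarTower k[X] (RatFunc k) L], IsThreeExtension D L →
        ∃ Z : (ZMod 3)[X],
          PowerSeries.map (Int.castRingHom (ZMod 3)) (LSeries f D (integralClosure k[X] L)) =
            (Z : PowerSeries (ZMod 3)) ∧
          Z.eval (Nat.card k : ZMod 3)⁻¹ =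
            ((Nat.card k : ZMod 3) ^ g * (Nat.card (ClassGroup (CR D)) : ZMod 3) ^ 2) ^ γ *
              nodeFactor f D n ∧
          rootMultiplicity (Nat.card k : ZMod 3)⁻¹ Z ≤ Module.finrank (RatFunc k) L *
            (γ * (rootMultiplicity 1 (w.map (Int.castRingHom (ZMod 3))) +
              rootMultiplicity (Nat.card k : ZMod 3)⁻¹ (w.map (Int.castRingHom (ZMod 3)))) +
              splitWeight f n D) ∧
          ∀ t : ℕ, VanishesToOrder t f D (integralClosure k[X] L) →
            t ≤ rootMultiplicity (Nat.card k : ZMod 3)⁻¹ Z := by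
  classical
  have hp : Fact (Nat.Prime 3) := ⟨Nat.prime_three⟩
  have hD : IsD g m D := IsD_iff.2 hD'
  have hodd : Odd D.natDegree := ⟨g, hD.deg⟩
  have hded : IsDedekindDomain (CR D) := dedekind h2 hodd hD.sqf
  have hu := unit3 (three_mod h3)
  obtain ⟨w, hw0, hw1, hw2⟩ := exists_WZ h2 hD.monic hD.deg hD.sqf
  have hw2' := hw2 (three_mod h3)
  set a : ZMod 3 := (Nat.card k : ZMod 3) with ha
  have hinv : a⁻¹ = a := inv_eq_of_mul_eq_one_right hu
  rw [hinv]
  set w3 : (ZMod 3)[X] := w.map (Int.castRingHom (ZMod 3)) with hw3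
  have e1 : E3 D * (w3 : PowerSeries (ZMod 3)) = 1 := by
    have := congrArg red3 hw0
    rw [map_mul, map_one, red3_EZ, ← Polynomial.polynomial_map_coe] at this
    exact this
  have e2 : w3.eval 1 = ((Nat.card (ClassGroup (CR D)) : ℕ) : ZMod 3) := by
    rw [hw3, Polynomial.eval_map, Polynomial.eval₂_at_one, hw1]
    simp
  refine ⟨hded, w, ?_, hw1, small h2 hD, ?_⟩
  · rw [EZ_eq hodd, mul_comm]
    exact hw0
  intro γ f hf L _ _ _ _ hL
  have hgal := hL.galois
  obtain ⟨j, hj⟩ := hL.degree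
  have hfd : FiniteDimensional (RatFunc k) L := by
    apply FiniteDimensional.of_finrank_pos
    rw [hj]
    positivity
  have i1 := fin_ic (k := k) L
  have i2 := flat_ic (k := k) L
  have i3 := gal_ic (k := k) L
  have i4 : IsDedekindDomain (integralClosure k[X] L) :=
    integralClosure.isDedekindDomain k[X] (RatFunc k) L
  have hex : ∀ P : MI k, ∃ ε : ℤ, P.1 ∣ n → ¬ P.1 ∣ D → NodeAt f D P ε := by
    intro P
    by_cases hP : P.1 ∣ n ∧ ¬ P.1 ∣ D
    · obtain ⟨ε, hε⟩ := exists_node hf D P hP.1 (fun h => hP.2 (h.trans hD.dvd))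
      exact ⟨ε, fun _ _ => hε⟩
    · exact ⟨0, fun h1 h2 => absurd ⟨h1, h2⟩ hP⟩
  choose ε hε using hex
  have hcard : Nat.card Gal(L/RatFunc k) = 3 ^ j := by
    rw [← hj]
    exact IsGalois.card_aut_eq_finrank _ _
  have hnode : ∀ P : MI k, P.1 ∣ n → ¬ P.1 ∣ D → (ε P = 1 ∨ ε P = -1) ∧
      (ε P = 1 ↔ SplitNode (C (AdjoinRoot.mk P.1 D) * f.map (AdjoinRoot.mk P.1))) :=
    fun P h4 h5 => node_iff hf h4 (fun h => h5 (h.trans hD.dvd)) h5 (hε P h4 h5)
  obtain ⟨Z, hZ1, hZ0, hZ2, hZ3⟩ := formula_ext Gal(L/RatFunc k) (B := integralClosure k[X] L) h2 h3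
    hn hf hD e1 hcard hL.ramified ε hε
  refine ⟨Z, hZ1, ?_, ?_, ?_⟩
  · rw [hZ2, hw2', e2, nodeFactor_eq f hn D]
    congr 1
    · ring
    · refine Finset.prod_congr rfl fun P hP => ?_
      rw [Finset.mem_filter, Pool.Agent.Y784.SV.mem_pd hn] at hP
      obtain ⟨h4, h5⟩ := hnode P hP.1 hP.2
      by_cases h6 : ε P = 1
      · rw [if_pos (h5.1 h6), h6, Int.cast_one, sub_self]
      · rw [if_neg (fun h => h6 (h5.2 h)), h4.resolve_left h6]
        rfl
  · rw [hj]
    refine hZ3.trans ?_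
    apply Nat.mul_le_mul_left
    apply Nat.add_le_add_left
    obtain ⟨T, hT, hT'⟩ := splitWeight_eq f hn D
    rw [hT']
    apply Finset.sum_le_sum_of_subset
    intro P hP
    rw [Finset.mem_filter, Pool.Agent.Y784.SV.mem_pd hn] at hP
    rw [hT]
    exact ⟨hP.1, (hnode P hP.1 hP.2.1).2.1 hP.2.2⟩
  · rintro t ⟨G, hG⟩
    rw [le_rootMultiplicity_iff hZ0]
    have h5 : red3 (LSeries f D (integralClosure k[X] L)) =
        (((1 - Polynomial.C a * Polynomial.X) ^ t *
          G.map (Int.castRingHom (ZMod 3)) : Polynomial (ZMod 3)) : PowerSeries (ZMod 3)) := by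
      rw [hG, ← Polynomial.polynomial_map_coe, Polynomial.map_mul, Polynomial.map_pow,
        Polynomial.map_sub, Polynomial.map_one, Polynomial.map_mul, Polynomial.map_C,
        Polynomial.map_X, eq_intCast, Int.cast_natCast]
    rw [h5] at hZ1
    have h6 := Polynomial.coe_injective (ZMod 3) hZ1
    have h7 : (1 - Polynomial.C a * Polynomial.X : Polynomial (ZMod 3)) =
        Polynomial.C (-a) * (Polynomial.X - Polynomial.C a) := by
      rw [Polynomial.C_neg]
      have h8 : Polynomial.C a * Polynomial.C a = (1 : Polynomial (ZMod 3)) := by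
        rw [← Polynomial.C_mul, hu, Polynomial.C_1]
      linear_combination -h8
    rw [← h6, h7, mul_pow]
    exact (dvd_mul_left _ _).mul_right _

end

end Pool.Agent.Q6.FF
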